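import Pool.Agent.H.MP_bd4c56_lc.A

/-! Local rules that force a labelling on every finite triangle: the one-dimensional counter. -/

namespace Pool.Agent.H.MP_4cfe6b_lc

variable {Θ : Type}

def Tri (n : ℕ) (Φ τ : ℕ → ℕ → Θ) : Prop :=
  ∀ x y, x + y + 1 < n → ∃ a b, τ x y = Φ a b ∧ τ x (y + 1) = Φ a (b + 1) ∧
    τ (x + 1) y = Φ (a + 1) b

def Cell (n : ℕ) (Φ τ : ℕ → ℕ → Θ) : Prop :=
  ∀ x y, x + y < n → ∃ a b, τ x y = Φ a b ∧ (a = 0 ↔ x = 0) ∧ (b = 0 ↔ y = 0)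

def KB (Φ : ℕ → ℕ → Θ) : Prop :=
  ∀ a b a' b', Φ a b = Φ a' b' → (a = 0 ↔ a' = 0) ∧ (b = 0 ↔ b' = 0)

def Forced (Φ : ℕ → ℕ → Θ) : Prop :=
  ∀ n (τ : ℕ → ℕ → Θ), τ 0 0 = Φ 0 0 → Tri n Φ τ → ∀ x y, x + y < n → τ x y = Φ x y

theorem Tri.flip {n : ℕ} {Φ τ : ℕ → ℕ → Θ} (h : Tri n Φ τ) :
    Tri n (fun y x => Φ x y) (fun y x => τ x y) := by
  intro y x hxy
  obtain ⟨a, b, h1, h2, h3⟩ := h x y (by omega)
  exact ⟨b, a, h1, h3, h2⟩

theorem Cell.flip {n : ℕ} {Φ τ : ℕ → ℕ → Θ} (h : Cell n Φ τ) :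
    Cell n (fun y x => Φ x y) (fun y x => τ x y) := by
  intro y x hxy
  obtain ⟨a, b, h1, h2, h3⟩ := h x y (by omega)
  exact ⟨b, a, h1, h3, h2⟩

theorem cell {n : ℕ} {Φ τ : ℕ → ℕ → Θ} (hK : KB Φ) (h0 : τ 0 0 = Φ 0 0) (h : Tri n Φ τ) :
    Cell n Φ τ := by
  have key : ∀ m x y, x + y = m → x + y < n →
      ∃ a b, τ x y = Φ a b ∧ (a = 0 ↔ x = 0) ∧ (b = 0 ↔ y = 0) := by
    intro m
    induction m with
    | zero =>
      intro x y h1 _
      have hx : x = 0 := by omega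
      have hy : y = 0 := by omega
      subst hx hy
      exact ⟨0, 0, h0, Iff.rfl, Iff.rfl⟩
    | succ m ih =>
      intro x y h1 h2
      rcases x with _ | x
      · obtain ⟨y, rfl⟩ : ∃ y', y = y' + 1 := ⟨y - 1, by omega⟩
        obtain ⟨a, b, e1, e2, -⟩ := h 0 y (by omega)
        obtain ⟨a', b', f1, f2, -⟩ := ih 0 y (by omega) (by omega)
        exact ⟨a, b + 1, e2, (hK _ _ _ _ (e1.symm.trans f1)).1.trans f2, by simp⟩
      · obtain ⟨a, b, e1, -, e3⟩ := h x y (by omega)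
        obtain ⟨a', b', f1, -, f3⟩ := ih x y (by omega) (by omega)
        exact ⟨a + 1, b, e3, by simp, (hK _ _ _ _ (e1.symm.trans f1)).2.trans f3⟩
  exact fun x y => key _ x y rfl

theorem dvd_succ_iff {p x x' : ℕ} (h : x % p = x' % p) : p ∣ x + 1 ↔ p ∣ x' + 1 := by
  rw [Nat.dvd_iff_mod_eq_zero, Nat.dvd_iff_mod_eq_zero, ← Nat.mod_add_mod, h, Nat.mod_add_mod]

theorem mod_succ {p x x' : ℕ} (h : x % p = x' % p) : (x + 1) % p = (x' + 1) % p := by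
  rw [← Nat.mod_add_mod, h, Nat.mod_add_mod]

theorem not_dvd_two {p x : ℕ} (hp : 2 ≤ p) (h : p ∣ x + 1) : ¬p ∣ x + 1 + 1 := fun h' => by
  have := Nat.le_of_dvd one_pos ((Nat.dvd_add_right h).1 h')
  omega

theorem pow_succ_dvd {p a b : ℕ} (hp : 2 ≤ p) :
    p ^ (b + 1) ∣ a + 1 ↔ p ^ b ∣ a + 1 ∧ p ∣ a / p ^ b + 1 := by
  have h0 : 0 < p ^ b := pow_pos (by omega) _
  by_cases h : p ^ b ∣ a + 1
  · rw [← Nat.succ_div_of_dvd h, Nat.dvd_div_iff_mul_dvd h, ← pow_succ]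
    simp [h]
  · simp only [h, false_and, iff_false]
    exact fun h' => h ((pow_dvd_pow _ (Nat.le_succ _)).trans h')

section one

variable {E : Type} {p : ℕ} {F : ℕ → E}

def Step1 (p : ℕ) (F : ℕ → E) : Prop :=
  ∀ x x', F (x / p) = F (x' / p) → x % p = x' % p → F x = F x'

def G1 (p : ℕ) (F : ℕ → E) (x : ℕ) : ZMod p × E × E := (x, F (x / p), F ((x + 1) / p))

theorem G1_iff {x x' : ℕ} : G1 p F x = G1 p F x' ↔
    x % p = x' % p ∧ F (x / p) = F (x' / p) ∧ F ((x + 1) / p) = F ((x' + 1) / p) := by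
  simp only [G1, Prod.mk.injEq, ZMod.natCast_eq_natCast_iff']

theorem G1_F (hF : Step1 p F) {x x' : ℕ} (h : G1 p F x = G1 p F x') :
    F x = F x' ∧ F (x + 1) = F (x' + 1) := by
  obtain ⟨h1, h2, h3⟩ := G1_iff.1 h
  exact ⟨hF _ _ h2 h1, hF _ _ h3 (mod_succ h1)⟩

theorem G1_child (hF : Step1 p F) {x x' : ℕ} (h : G1 p F (x / p) = G1 p F (x' / p))
    (hm : x % p = x' % p) : G1 p F x = G1 p F x' := by
  obtain ⟨h1, h2⟩ := G1_F hF h
  refine G1_iff.2 ⟨hm, h1, ?_⟩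
  by_cases hd : p ∣ x + 1
  · rw [Nat.succ_div_of_dvd hd, Nat.succ_div_of_dvd ((dvd_succ_iff hm).1 hd), h2]
  · rw [Nat.succ_div_of_not_dvd hd,
      Nat.succ_div_of_not_dvd fun e => hd ((dvd_succ_iff hm).2 e), h1]

theorem G1_shift (hp : 2 ≤ p) {x x' : ℕ} (h : G1 p F x = G1 p F x') (hd : p ∣ x + 1) :
    G1 p F (x + 1) = G1 p F (x' + 1) := by
  obtain ⟨h1, -, h3⟩ := G1_iff.1 h
  refine G1_iff.2 ⟨mod_succ h1, h3, ?_⟩
  rw [Nat.succ_div_of_not_dvd (not_dvd_two hp hd),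
    Nat.succ_div_of_not_dvd (not_dvd_two hp ((dvd_succ_iff h1).1 hd)), h3]

def Psi (p : ℕ) (F : ℕ → E) (x l : ℕ) : (ZMod p × E × E) × Prop :=
  (G1 p F (x / p ^ l), p ^ l ∣ x + 1)

theorem psi_step (hp : 2 ≤ p) (hF : Step1 p F) {a b x l : ℕ} (h1 : Psi p F a b = Psi p F x l)
    (h2 : Psi p F a (b + 1) = Psi p F x (l + 1)) :
    G1 p F ((a + 1) / p ^ b) = G1 p F ((x + 1) / p ^ l) := by
  simp only [Psi, Prod.mk.injEq, eq_iff_iff] at h1 h2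
  obtain ⟨e1, e2⟩ := h1
  obtain ⟨e3, -⟩ := h2
  by_cases hd : p ^ b ∣ a + 1
  · rw [Nat.succ_div_of_dvd hd, Nat.succ_div_of_dvd (e2.1 hd)]
    rw [pow_succ, pow_succ, ← Nat.div_div_eq_div_mul, ← Nat.div_div_eq_div_mul] at e3
    have hm := (G1_iff.1 e1).1
    by_cases hd' : p ∣ a / p ^ b + 1
    · exact G1_shift hp e1 hd'
    · refine G1_child hF ?_ (mod_succ hm)
      rwa [Nat.succ_div_of_not_dvd hd',
        Nat.succ_div_of_not_dvd fun e => hd' ((dvd_succ_iff hm).2 e)]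
  · rwa [Nat.succ_div_of_not_dvd hd, Nat.succ_div_of_not_dvd fun e => hd (e2.2 e)]

theorem force1 (hp : 2 ≤ p) (hF : Step1 p F) {n : ℕ} {Φ τ : ℕ → ℕ → Θ} (h : Tri n Φ τ)
    (hc : Cell n Φ τ) (f : Θ → (ZMod p × E × E) × Prop) (hf : ∀ a b, f (Φ a b) = Psi p F a b) :
    ∀ x l, x + l < n → f (τ x l) = Psi p F x l := by
  have A : ∀ x, (∀ l, x + l < n → (f (τ x l)).1 = G1 p F (x / p ^ l)) →
      ∀ l, x + l < n → f (τ x l) = Psi p F x l := by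
    intro x hx l
    induction l with
    | zero =>
      intro hl
      refine Prod.ext (hx 0 hl) ?_
      obtain ⟨a, b, e1, -, e3⟩ := hc x 0 hl
      rw [e1, hf, e3.2 rfl]
      simp [Psi]
    | succ l ih =>
      intro hl
      refine Prod.ext (hx _ hl) ?_
      obtain ⟨a, b, e1, e2, -⟩ := h x l (by omega)
      have := ih (by omega)
      rw [e1, hf] at this
      simp only [Psi, Prod.mk.injEq, eq_iff_iff] at this
      rw [e2, hf]
      simp only [Psi, eq_iff_iff]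
      rw [pow_succ_dvd hp, pow_succ_dvd hp, this.2, dvd_succ_iff (G1_iff.1 this.1).1]
  intro x
  induction x with
  | zero =>
    refine A 0 fun l hl => ?_
    obtain ⟨a, b, e1, e2, -⟩ := hc 0 l hl
    rw [e1, hf, e2.2 rfl]
    simp [Psi]
  | succ x ih =>
    refine A _ fun l hl => ?_
    obtain ⟨a, b, e1, e2, e3⟩ := h x l (by omega)
    have h1 := ih l (by omega)
    have h2 := ih (l + 1) (by omega)
    rw [e1, hf] at h1
    rw [e2, hf] at h2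
    rw [e3, hf]
    exact psi_step hp hF h1 h2

end one

end Pool.Agent.H.MP_4cfe6b_lc
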