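import Pool.Agent.H.MP_4cfe6b_lc.A

/-! Local rules that force a modular labelling on every finite triangle. -/

namespace Pool.Agent.H.MP_4cfe6b_lc

open Pool.Agent.H.MP_bd4c56_lc

def val (p x : ℕ) : ℕ := Nat.findGreatest (fun k => p ^ k ∣ x) x

theorem dvd_iff_val {p x k : ℕ} (hp : 2 ≤ p) (hx : x ≠ 0) : p ^ k ∣ x ↔ k ≤ val p x := by
  refine ⟨fun h => Nat.le_findGreatest ?_ h, fun h => (pow_dvd_pow _ h).trans ?_⟩
  · exact ((Nat.lt_pow_self (by omega)).trans_le (Nat.le_of_dvd (by omega) h)).le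
  · exact Nat.findGreatest_spec (P := fun k => p ^ k ∣ x) (Nat.zero_le _) (by simp)

theorem val_eq {p x k : ℕ} (hp : 2 ≤ p) (hx : x ≠ 0) (h1 : p ^ k ∣ x) (h2 : ¬p ^ (k + 1) ∣ x) :
    val p x = k := by
  rw [dvd_iff_val hp hx] at h1 h2
  omega

theorem val_zero {p x : ℕ} (hp : 2 ≤ p) (h : ¬p ∣ x) : val p x = 0 :=
  val_eq hp (by rintro rfl; simp at h) (by simp) (by simpa using h)

theorem val_div {p x : ℕ} (hp : 2 ≤ p) (h : p ∣ x) :
    x / p ^ (val p x + 1) = x / p / p ^ (val p (x / p) + 1) := by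
  obtain ⟨y, rfl⟩ := h
  rcases Nat.eq_zero_or_pos y with rfl | hy
  · simp
  have e : ∀ k, p ^ (k + 1) ∣ p * y ↔ p ^ k ∣ y := fun k => by
    rw [pow_succ', Nat.mul_dvd_mul_iff_left (by omega)]
  have hv : val p (p * y) = val p y + 1 := by
    refine val_eq hp (by positivity) ?_ ?_
    · rw [e, dvd_iff_val hp hy.ne']
    · rw [e, dvd_iff_val hp hy.ne']; omega
  rw [hv, Nat.mul_div_cancel_left _ (by omega), pow_succ' p (val p y + 1),
    Nat.mul_div_mul_left _ _ (by omega)]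

def D0 (p q x y : ℕ) : Prop := ∀ k, q ^ k ∣ y → p ^ k ∣ x

theorem D0_iff {p q x y : ℕ} (hp : 2 ≤ p) (hx : x ≠ 0) :
    D0 p q x y ↔ ¬q ^ (val p x + 1) ∣ y := by
  refine ⟨fun h h' => ?_, fun h k hk => ?_⟩
  · have := (dvd_iff_val hp hx).1 (h _ h')
    omega
  · rw [dvd_iff_val hp hx]
    by_contra hh
    exact h ((pow_dvd_pow _ (by omega)).trans hk)

theorem D0_total {p q x y : ℕ} (hp : 2 ≤ p) (hq : 2 ≤ q) (hx : x ≠ 0) (hy : y ≠ 0) :
    D0 p q x y ∨ D0 q p y x := by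
  rw [D0_iff hp hx, D0_iff hq hy, dvd_iff_val hp hx, dvd_iff_val hq hy]
  omega

theorem D0_rec {p q x y : ℕ} (hp : 2 ≤ p) (hq : 2 ≤ q) :
    D0 p q x y ↔ (q ∣ y → p ∣ x ∧ D0 p q (x / p) (y / q)) := by
  refine ⟨fun h hy => ?_, fun h k hk => ?_⟩
  · have hx : p ∣ x := by simpa using h 1 (by simpa using hy)
    refine ⟨hx, fun k hk => ?_⟩
    rw [Nat.dvd_div_iff_mul_dvd hx, ← pow_succ']
    apply h
    rwa [Nat.dvd_div_iff_mul_dvd hy, ← pow_succ'] at hk
  · rcases k with _ | k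
    · simp
    have hy : q ∣ y := (dvd_pow_self q (Nat.succ_ne_zero k)).trans hk
    obtain ⟨hx, h'⟩ := h hy
    have := h' k (by rwa [Nat.dvd_div_iff_mul_dvd hy, ← pow_succ'])
    rwa [Nat.dvd_div_iff_mul_dvd hx, ← pow_succ'] at this

theorem dvd_mod {p x x' : ℕ} (h : x % p = x' % p) : p ∣ x ↔ p ∣ x' := by
  rw [Nat.dvd_iff_mod_eq_zero, Nat.dvd_iff_mod_eq_zero, h]

variable {E : Type}

structure Half (p q : ℕ) (G : ℕ → ℕ → E) : Prop where
  mx : ∀ {x y x' y'}, G x y = G x' y' → x % p = x' % p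
  my : ∀ {x y x' y'}, G x y = G x' y' → y % q = y' % q
  child : ∀ {x y x' y'}, G (x / p) (y / q) = G (x' / p) (y' / q) → x % p = x' % p →
    y % q = y' % q → G x y = G x' y'
  shift : ∀ {x y x' y'}, G x y = G x' y' → q ∣ y + 1 → G x (y + 1) = G x' (y' + 1)
  d0 : ∀ {x y x' y'}, G x y = G x' y' → (D0 p q x (y + 1) ↔ D0 p q x' (y' + 1))

def Hf (p q : ℕ) (G : ℕ → ℕ → E) (x y : ℕ) : E :=
  G (x / p ^ (val p x + 1)) (y / q ^ (val p x + 1))

theorem H_step {p q : ℕ} {G : ℕ → ℕ → E} (hp : 2 ≤ p) (hq : 2 ≤ q) (hG : Half p q G)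
    {c d x y : ℕ} (hc : c ≠ 0) (hx : x ≠ 0) (h1 : G c d = G x y) (h2 : Hf p q G c d = Hf p q G x y)
    (h3 : ¬D0 p q x (y + 1) →
      Hf q p (fun y x => G x y) (d + 1) c = Hf q p (fun y x => G x y) (y + 1) x) :
    Hf p q G c (d + 1) = Hf p q G x (y + 1) := by
  have e := hG.d0 h1
  by_cases hD : D0 p q x (y + 1)
  · have hD' := e.2 hD
    rw [D0_iff hp hx] at hD
    rw [D0_iff hp hc] at hD'
    simp only [Hf] at h2 ⊢
    rwa [Nat.succ_div_of_not_dvd hD, Nat.succ_div_of_not_dvd hD']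
  · have h4 := h3 hD
    have hD' : ¬D0 p q c (d + 1) := fun h => hD (e.1 h)
    rw [D0_iff hp hx, not_not] at hD
    rw [D0_iff hp hc, not_not] at hD'
    simp only [Hf] at h2 h4 ⊢
    rw [Nat.succ_div_of_dvd hD, Nat.succ_div_of_dvd hD']
    have hm := hG.my h2
    by_cases hd : q ∣ d / q ^ (val p c + 1) + 1
    · exact hG.shift h2 hd
    · have hd' : ¬q ∣ y / q ^ (val p x + 1) + 1 := fun h => hd ((dvd_succ_iff hm).2 h)
      have v1 : val q (d + 1) = val p c + 1 :=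
        val_eq hq (by omega) hD' fun h => hd ((pow_succ_dvd hq).1 h).2
      have v2 : val q (y + 1) = val p x + 1 :=
        val_eq hq (by omega) hD fun h => hd' ((pow_succ_dvd hq).1 h).2
      rw [v1, v2, pow_succ p (val p c + 1), pow_succ q (val p c + 1), pow_succ p (val p x + 1),
        pow_succ q (val p x + 1)] at h4
      simp only [← Nat.div_div_eq_div_mul] at h4
      rw [Nat.succ_div_of_dvd hD, Nat.succ_div_of_dvd hD'] at h4
      exact hG.child h4 (hG.mx h2) (mod_succ hm)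

def F1 (p q : ℕ) (G : ℕ → ℕ → E) (x : ℕ) : E × E × E :=
  (G x 0, Hf p q G x 0, Hf q p (fun y x => G x y) 0 x)

theorem F1_step {p q : ℕ} {G : ℕ → ℕ → E} (hp : 2 ≤ p) (hG : Half p q G) :
    Step1 p (F1 p q G) := by
  intro x x' h hm
  simp only [F1, Prod.mk.injEq] at h ⊢
  obtain ⟨h1, h2, -⟩ := h
  refine ⟨hG.child (by simpa using h1) hm rfl, ?_, ?_⟩
  · by_cases hd : p ∣ x
    · simp only [Hf, Nat.zero_div] at h2 ⊢
      rwa [val_div hp hd, val_div hp ((dvd_mod hm).1 hd)]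
    · have hd' : ¬p ∣ x' := fun e => hd ((dvd_mod hm).2 e)
      simpa [Hf, val_zero hp hd, val_zero hp hd'] using h1
  · simpa [Hf, val] using h1

abbrev PT (p q : ℕ) (E : Type) : Type := (Prop × Prop) × (E × E × E) ×
  ((ZMod p × (E × E × E) × E × E × E) × Prop) × (ZMod q × (E × E × E) × E × E × E) × Prop

theorem PT_fin (p q : ℕ) [NeZero p] [NeZero q] (E : Type) [Finite E] : Finite (PT p q E) :=
  inferInstance

def Phi (p q : ℕ) (G : ℕ → ℕ → E) (x y : ℕ) : PT p q E :=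
  ((x = 0, y = 0), (G x y, Hf p q G x y, Hf q p (fun y x => G x y) y x),
    Psi p (F1 p q G) x y, Psi q (F1 q p fun y x => G x y) y x)

theorem Phi_forced {p q : ℕ} {G : ℕ → ℕ → E} (hp : 2 ≤ p) (hq : 2 ≤ q) (hG : Half p q G)
    (hG' : Half q p fun y x => G x y) : Forced (Phi p q G) := by
  intro n τ h0 h
  have hK : KB (Phi p q G) := fun a b a' b' e => by
    have := congrArg Prod.fst e
    simpa [Phi] using this
  have hc := cell hK h0 h
  have f1 := force1 hp (F1_step hp hG) h hc (fun θ => θ.2.2.1) fun _ _ => rfl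
  have f2 := force1 hq (F1_step hq hG') h.flip hc.flip (fun θ => θ.2.2.2) fun _ _ => rfl
  have key : ∀ m x y, x + y = m → x + y < n → (τ x y).2.1 = (Phi p q G x y).2.1 := by
    intro m
    induction m using Nat.strong_induction_on with
    | _ m ih =>
    intro x y hm hn
    rcases y with _ | y
    · obtain ⟨a, b, e1, -, e3⟩ := hc x 0 hn
      have := f1 x 0 hn
      rw [e3.2 rfl] at e1
      rw [e1] at this ⊢
      have h1 : G1 p (F1 p q G) (a / p ^ 0) = G1 p (F1 p q G) (x / p ^ 0) :=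
        congrArg Prod.fst this
      simp only [pow_zero, Nat.div_one] at h1
      exact (G1_F (F1_step hp hG) h1).1
    rcases x with _ | x
    · obtain ⟨a, b, e1, e2, -⟩ := hc 0 (y + 1) hn
      have := f2 (y + 1) 0 (by omega)
      rw [e2.2 rfl] at e1
      rw [e1] at this ⊢
      have h1 : G1 q (F1 q p fun y x => G x y) (b / q ^ 0) =
          G1 q (F1 q p fun y x => G x y) ((y + 1) / q ^ 0) := congrArg Prod.fst this
      simp only [pow_zero, Nat.div_one] at h1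
      have h2 := (G1_F (F1_step hq hG') h1).1
      simp only [F1, Prod.mk.injEq] at h2
      simp only [Phi, Prod.mk.injEq]
      exact ⟨h2.1, h2.2.2, h2.2.1⟩
    obtain ⟨c, d, c1, c2, -⟩ := h (x + 1) y (by omega)
    obtain ⟨a, b, a1, -, a2⟩ := h x (y + 1) (by omega)
    have i1 := ih _ (by omega) (x + 1) y rfl (by omega)
    have i2 := ih _ (by omega) x (y + 1) rfl (by omega)
    obtain ⟨c', d', e1, e2, -⟩ := hc (x + 1) y (by omega)
    obtain ⟨a', b', e3, -, e4⟩ := hc x (y + 1) (by omega)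
    have hc0 : c ≠ 0 := fun e => by
      have := e2.1 ((hK _ _ _ _ (c1.symm.trans e1)).1.1 e)
      omega
    have hb0 : b ≠ 0 := fun e => by
      have := e4.1 ((hK _ _ _ _ (a1.symm.trans e3)).2.1 e)
      omega
    have j := congrArg (fun θ => θ.2.1) (c2.symm.trans a2)
    rw [c1] at i1
    rw [a1] at i2
    rw [c2]
    simp only [Phi, Prod.mk.injEq] at i1 i2 j ⊢
    have sH := H_step hp hq hG hc0 (Nat.succ_ne_zero x) i1.1 i1.2.1
    have sV := H_step hq hp hG' hb0 (Nat.succ_ne_zero y) i2.1 i2.2.2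
    have hHV : Hf p q G c (d + 1) = Hf p q G (x + 1) (y + 1) ∧
        Hf q p (fun y x => G x y) (d + 1) c = Hf q p (fun y x => G x y) (y + 1) (x + 1) := by
      rcases D0_total hp hq (Nat.succ_ne_zero x) (Nat.succ_ne_zero y) with hD | hD
      · have h1 := sH fun e => (e hD).elim
        exact ⟨h1, j.2.2.trans (sV fun _ => j.2.1.symm.trans h1)⟩
      · have h1 := j.2.2.trans (sV fun e => (e hD).elim)
        exact ⟨sH fun _ => h1, h1⟩
    refine ⟨?_, hHV⟩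
    have m1 := hG.mx i1.1
    have m2 := hG.my i1.1
    by_cases hd : q ∣ d + 1
    · exact hG.shift i1.1 hd
    by_cases hd2 : p ∣ a + 1
    · exact j.1.trans (hG'.shift i2.1 hd2)
    have hd3 : ¬p ∣ x + 1 := fun e => hd2 ((dvd_succ_iff (hG.mx i2.1)).2 e)
    have hd4 : ¬p ∣ c := fun e => hd3 ((dvd_mod m1).1 e)
    have h1 := hHV.1
    simp only [Hf, val_zero hp hd3, val_zero hp hd4, zero_add, pow_one] at h1
    exact hG.child h1 m1 (mod_succ m2)
  intro x y hxy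
  obtain ⟨a, b, e1, e2, e3⟩ := hc x y hxy
  refine Prod.ext ?_ (Prod.ext (key _ x y rfl hxy) (Prod.ext (f1 x y hxy) (f2 y x (by omega))))
  rw [e1]
  simp [Phi, e2, e3]

section G

variable {D : Type}

def Bs (p q : ℕ) (T : ℕ → ℕ → D) (x y : ℕ) : D × ZMod p × ZMod q × Prop × Prop :=
  (T x y, x, y, D0 p q x y, D0 q p y x)

def Gs (p q : ℕ) (T : ℕ → ℕ → D) (x y : ℕ) :
    ZMod p × ZMod q × (Fin 2 → Fin 2 → D × ZMod p × ZMod q × Prop × Prop) :=
  (x, y, fun s t => Bs p q T ((x + s) / p) ((y + t) / q))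

variable {p q : ℕ} {T : ℕ → ℕ → D}

theorem Gs_iff {x y x' y' : ℕ} : Gs p q T x y = Gs p q T x' y' ↔ x % p = x' % p ∧ y % q = y' % q ∧
    ∀ s ≤ 1, ∀ t ≤ 1,
      Bs p q T ((x + s) / p) ((y + t) / q) = Bs p q T ((x' + s) / p) ((y' + t) / q) := by
  simp only [Gs, Prod.mk.injEq, ZMod.natCast_eq_natCast_iff', funext_iff]
  exact and_congr Iff.rfl (and_congr Iff.rfl ⟨fun h s hs t ht => h ⟨s, by omega⟩ ⟨t, by omega⟩,
    fun h s t => h s (by omega) t (by omega)⟩)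

theorem Bs_step (hp : 2 ≤ p) (hq : 2 ≤ q) (hT : Closed p q T) {x y x' y' : ℕ}
    (h : Bs p q T (x / p) (y / q) = Bs p q T (x' / p) (y' / q)) (h1 : x % p = x' % p)
    (h2 : y % q = y' % q) : Bs p q T x y = Bs p q T x' y' := by
  simp only [Bs, Prod.mk.injEq, ZMod.natCast_eq_natCast_iff', eq_iff_iff] at h ⊢
  obtain ⟨e1, -, -, e4, e5⟩ := h
  refine ⟨hT.step (by omega) (by omega) e1 h1 h2, h1, h2, ?_, ?_⟩
  · rw [D0_rec hp hq, D0_rec (x := x') hp hq, e4, dvd_mod h1, dvd_mod h2]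
  · rw [D0_rec hq hp, D0_rec (x := y') hq hp, e5, dvd_mod h1, dvd_mod h2]

theorem mod_add {p x x' : ℕ} (h : x % p = x' % p) (s : ℕ) : (x + s) % p = (x' + s) % p := by
  rw [← Nat.mod_add_mod, h, Nat.mod_add_mod]

theorem Gs_B (hp : 2 ≤ p) (hq : 2 ≤ q) (hT : Closed p q T) {x y x' y' : ℕ}
    (h : Gs p q T x y = Gs p q T x' y') : ∀ s ≤ 1, ∀ t ≤ 1,
      Bs p q T (x + s) (y + t) = Bs p q T (x' + s) (y' + t) := fun s hs t ht =>
  Bs_step hp hq hT ((Gs_iff.1 h).2.2 s hs t ht) (mod_add (Gs_iff.1 h).1 s)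
    (mod_add (Gs_iff.1 h).2.1 t)

theorem div_off {p x x' s : ℕ} (h : x % p = x' % p) (hs : s ≤ 1) :
    ∃ s' ≤ 1, (x + s) / p = x / p + s' ∧ (x' + s) / p = x' / p + s' := by
  rcases s with _ | s
  · exact ⟨0, by omega, rfl, rfl⟩
  have : s = 0 := by omega
  subst this
  by_cases hd : p ∣ x + 1
  · exact ⟨1, le_rfl, Nat.succ_div_of_dvd hd, Nat.succ_div_of_dvd ((dvd_succ_iff h).1 hd)⟩
  · exact ⟨0, by omega, Nat.succ_div_of_not_dvd hd,
      Nat.succ_div_of_not_dvd fun e => hd ((dvd_succ_iff h).2 e)⟩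

theorem Gs_child (hp : 2 ≤ p) (hq : 2 ≤ q) (hT : Closed p q T) {x y x' y' : ℕ}
    (h : Gs p q T (x / p) (y / q) = Gs p q T (x' / p) (y' / q)) (h1 : x % p = x' % p)
    (h2 : y % q = y' % q) : Gs p q T x y = Gs p q T x' y' := by
  refine Gs_iff.2 ⟨h1, h2, fun s hs t ht => ?_⟩
  obtain ⟨s', hs', a1, a2⟩ := div_off h1 hs
  obtain ⟨t', ht', b1, b2⟩ := div_off h2 ht
  rw [a1, a2, b1, b2]
  exact Gs_B hp hq hT h s' hs' t' ht'

theorem div_same {p x s : ℕ} (hp : 2 ≤ p) (h : p ∣ x + 1) (hs : s ≤ 1) :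
    (x + 1 + s) / p = (x + 1) / p := by
  rcases s with _ | s
  · rfl
  have : s = 0 := by omega
  subst this
  exact Nat.succ_div_of_not_dvd (not_dvd_two hp h)

theorem half1 (hp : 2 ≤ p) (hq : 2 ≤ q) (hT : Closed p q T) : Half p q (Gs p q T) where
  mx h := (Gs_iff.1 h).1
  my h := (Gs_iff.1 h).2.1
  child := Gs_child hp hq hT
  shift h hd := by
    obtain ⟨h1, h2, h3⟩ := Gs_iff.1 h
    refine Gs_iff.2 ⟨h1, mod_succ h2, fun s hs t ht => ?_⟩
    rw [div_same hq hd ht, div_same hq ((dvd_succ_iff h2).1 hd) ht]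
    exact h3 s hs 1 le_rfl
  d0 h := by
    have := Gs_B hp hq hT h 0 (by omega) 1 le_rfl
    simp only [Bs, Prod.mk.injEq, eq_iff_iff] at this
    exact this.2.2.2.1

theorem half2 (hp : 2 ≤ p) (hq : 2 ≤ q) (hT : Closed p q T) :
    Half q p fun y x => Gs p q T x y where
  mx h := (Gs_iff.1 h).2.1
  my h := (Gs_iff.1 h).1
  child h h1 h2 := Gs_child hp hq hT h h2 h1
  shift h hd := by
    obtain ⟨h1, h2, h3⟩ := Gs_iff.1 h
    refine Gs_iff.2 ⟨mod_succ h1, h2, fun s hs t ht => ?_⟩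
    rw [div_same hp hd hs, div_same hp ((dvd_succ_iff h1).1 hd) hs]
    exact h3 1 le_rfl t ht
  d0 h := by
    have := Gs_B hp hq hT h 1 le_rfl 0 (by omega)
    simp only [Bs, Prod.mk.injEq, eq_iff_iff] at this
    exact this.2.2.2.2

theorem modular_forced [Finite D] (h : Modular T) : ∃ (Θ : Type) (_ : Finite Θ) (Φ : ℕ → ℕ → Θ),
    Forced Φ ∧ ∀ a b a' b', Φ a b = Φ a' b' → T a b = T a' b' := by
  obtain ⟨p, q, hp, hq, hT⟩ := h.closed
  have : NeZero p := ⟨by omega⟩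
  have : NeZero q := ⟨by omega⟩
  refine ⟨_, PT_fin p q _, Phi p q (Gs p q T),
    Phi_forced hp hq (half1 hp hq hT) (half2 hp hq hT), fun a b a' b' e => ?_⟩
  have := Gs_B hp hq hT (congrArg (fun θ => θ.2.1.1) e) 0 (by omega) 0 (by omega)
  exact congrArg Prod.fst this

end G

end Pool.Agent.H.MP_4cfe6b_lc
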